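import Pool.Agent.Work.MP_a8f287_co.Bd.B17
import Pool.Agent.Work.MP_a8f287_co.Bd.B13
import Pool.Agent.Work.MP_a8f287_co.Bd.B12
import Pool.Agent.Work.MP_a8f287_co.Bd.B16

/-!
The bound `c(M;2) ≤ 3` for binary matroids without `M(K5)`-minor.
-/

namespace Pool.Agent.WW

universe u

/-- the lemma L4 -/
theorem a3KL4 : KL4.{u} :=
  kL4_of kLFun (kLAll kLBase kLFun (kLTouch kLStep) (kLTransfer kLStep)) kLConf (kLShape kLFun) kLIns

/-- the critical exponent of a binary matroid without `M(K5)`-minor is at most three -/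
theorem crit_three
    {V : Type u} [AddCommGroup V] [Module (ZMod 2) V] [FiniteDimensional (ZMod 2) V]
    (E : Finset V) (h0 : (0 : V) ∉ E) (hfree : ¬ HasK5 (E : Set V)) :
    ∃ f : V →ₗ[ZMod 2] (Fin 3 → ZMod 2), ∀ v ∈ E, f v ≠ 0 :=
  crit_three_HL a3KL4 kHIT E h0 hfree

end Pool.Agent.WW
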