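import Pool.Agent.Work.MP_a8f287_co.Bd.B05
import Pool.Agent.Work.MP_a8f287_co.Bd.B06
import Pool.Agent.Work.MP_a8f287_co.Bd.B07
import Pool.Agent.Work.MP_a8f287_co.Bd.B09
import Pool.Agent.Work.MP_a8f287_co.Bd.B15
import Pool.Agent.Work.MP_a8f287_co.Bd.T15

/-!
Assembly of the module T: Theorem C, the triangle inequality, and the density bound for good
sets without cocircuits of rank four, up to the interfaces `K4a`, `K4b`, `T6step`.
-/

namespace Pool.Agent.WW

open Submodule Module

universe u

theorem aTCross : ClaimCross.{u} := claimCross claimCovDim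
theorem aTFive : ClaimFive.{u} := claimFive claimCovDim
theorem aTMinFrag : ClaimMinFrag.{u} := claimMinFrag claimCovDim aTCross aTFive
theorem aTThmC : ClaimThmC.{u} := claimThmC aTMinFrag
theorem aTNot4 : ClaimTNot4.{u} := claimTNot4 claimTriSplit claimTriLine
theorem aTSep : ClaimTSep.{u} := claimTSep claimTriSplit claimTriLine claimTriPlane
theorem aTC4 : ClaimTC4.{u} := claimTC4 claimTriSplit claimTriLine claimTriPlane claimTriFour
theorem aTStep : ClaimTStep.{u} :=
  claimTStep claimCovDim claimTriPlane claimTriFour aTNot4 aTSep aTC4 claimTContr claimCtrGood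
    claimNoGQ
theorem aTAll : ClaimTAll.{u} := claimTAll claimTRel aTStep
theorem aTCount : ClaimCount.{u} := claimCount claimTriLine claimTriPlane
theorem aTSide : ClaimSide.{u} := claimSide aTCount
theorem aTCaseI : ClaimCaseI.{u} :=
  claimCaseI claimCovDim aTCross aTFive aTMinFrag claimDegRes claimTwoPlanes aTSide
theorem aTD3NoC4 : ClaimD3NoC4.{u} := claimD3NoC4 aTAll aTCaseI claimCtrGood claimNoGQ

/-- the triangle inequality from the interfaces with the other modules -/
theorem aTR (hb : K4b.{u}) (h6 : T6step.{u}) (n : ℕ) (hn : 5 ≤ n) : TR.{u} n :=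
  aTAll hb h6 tabGQ tr5 n hn

end Pool.Agent.WW
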